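import Pool.Agent.W192.HK.Parts

set_option autoImplicit false

/-!
# Fibres of the powers of a ray class character on residue classes
-/

namespace Pool.Agent.W692.HK

open Pool.Agent.W192.HK

section
variable {R : Subring ℂ} {c : Ideal R} {χ : Ideal R → ℂ}

theorem chi_mul (h : RC c χ) (a b : R) : χ (sp (a * b)) = χ (sp a) * χ (sp b) := by
  rw [← h.mul, Ideal.span_singleton_mul_span_singleton]

theorem chi_pow (h : RC c χ) (ht : χ ⊤ = 1) (I : Ideal R) (n : ℕ) : χ (I ^ n) = χ I ^ n := by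
  induction n with
  | zero => rw [pow_zero, pow_zero, Ideal.one_eq_top, ht]
  | succ n ih => rw [pow_succ, pow_succ, h.mul, ih]

theorem sp_pow (a : R) (n : ℕ) : sp (a ^ n) = (sp a) ^ n := by
  rw [Ideal.span_singleton_pow]

/-- the group of the values of `χ ^ k` on principal ideals -/
def MM (h : RC c χ) (ht : χ ⊤ = 1) {d : ℕ} (hd : Od χ d) (k : ℕ) : Subgroup ℂˣ where
  carrier := {u | ∃ a : R, χ (sp a) ≠ 0 ∧ (u : ℂ) = χ (sp a) ^ k}
  one_mem' := ⟨1, by
    have : sp (1 : R) = ⊤ := Ideal.span_singleton_one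
    rw [this, ht]
    exact ⟨one_ne_zero, by rw [one_pow]; rfl⟩⟩
  mul_mem' := by
    rintro u v ⟨a, ha, hu⟩ ⟨b, hb, hv⟩
    refine ⟨a * b, ?_, ?_⟩
    · rw [chi_mul h]; exact mul_ne_zero ha hb
    · rw [chi_mul h, mul_pow, Units.val_mul, hu, hv]
  inv_mem' := by
    rintro u ⟨a, ha, hu⟩
    refine ⟨a ^ (d - 1), ?_, ?_⟩
    · rw [sp_pow, chi_pow h ht]; exact pow_ne_zero _ ha
    · rw [sp_pow, chi_pow h ht, Units.val_inv_eq_inv_val, hu]
      have h1 := hd.pow _ ha
      have h2 : (χ (sp a) ^ (d - 1)) * χ (sp a) = 1 := by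
        rw [← pow_succ, Nat.sub_add_cancel hd.pos, h1]
      rw [eq_comm, ← mul_eq_one_iff_eq_inv₀ (pow_ne_zero _ ha), ← mul_pow, h2, one_pow]

theorem MM_finite (h : RC c χ) (ht : χ ⊤ = 1) {d : ℕ} (hd : Od χ d) (k : ℕ) :
    Finite (MM h ht hd k) := by
  have : NeZero d := ⟨hd.pos.ne'⟩
  have h1 : ∀ u : MM h ht hd k, (u : ℂˣ) ∈ rootsOfUnity d ℂ := by
    rintro ⟨u, a, ha, hu⟩
    refine (_root_.mem_rootsOfUnity' d _).2 ?_
    change (u : ℂ) ^ d = 1
    rw [hu, ← pow_mul, mul_comm, pow_mul, hd.pow _ ha, one_pow]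
  exact Finite.of_injective (fun u : MM h ht hd k => (⟨(u : ℂˣ), h1 u⟩ : rootsOfUnity d ℂ))
    fun u v huv => Subtype.ext (congrArg (fun w : rootsOfUnity d ℂ => (w : ℂˣ)) huv)

end

theorem h_ker (h1 : H_BASIC) (h2 : H_CLS) (h3 : H_FPR) : H_KER := by
  classical
  intro R ω hR
  obtain ⟨h, hh1, hh, -⟩ := h2 R ω hR
  have hb := h1 R ω hR
  refine ⟨h, by exact_mod_cast hh1, ?_⟩
  intro c χ hχ d hd e he q hq0 T hcq hqne hT ζ
  obtain ⟨hper, -, ht, -⟩ := h3 R ω hR c χ hχ
  set k := d / e with hk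
  have hdpos := hd.pos
  have hepos : 0 < e := Nat.pos_of_dvd_of_pos he hdpos
  have hkpos : 0 < k := Nat.div_pos (Nat.le_of_dvd hdpos he) hepos
  have hek : e * k = d := Nat.mul_div_cancel' he
  have hfin := MM_finite hχ ht hd k
  set n' := Nat.card (MM hχ ht hd k) with hn'
  have hn'pos : 0 < n' := Nat.card_pos
  -- `e ≤ h n'`
  have hle : e ≤ h * n' := by
    have h4 : d ≤ h * k * n' := by
      refine hd.least _ (by positivity) fun I hI => ?_
      obtain ⟨α, hα⟩ := hh I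
      have h5 : χ (sp α) = χ I ^ h := by rw [← hα, chi_pow hχ ht]
      have h6 : χ (sp α) ≠ 0 := by rw [h5]; exact pow_ne_zero _ hI
      have h7 : Units.mk0 (χ (sp α) ^ k) (pow_ne_zero _ h6) ∈ MM hχ ht hd k := ⟨α, h6, rfl⟩
      have h8 : (⟨_, h7⟩ : MM hχ ht hd k) ^ n' = 1 := pow_card_eq_one'
      have h9 := congrArg (fun w : MM hχ ht hd k => ((w : ℂˣ) : ℂ)) h8
      simp only [SubgroupClass.coe_pow, Units.val_pow_eq_pow_val, Units.val_mk0,
        OneMemClass.coe_one, Units.val_one] at h9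
      rw [h5, ← pow_mul, ← pow_mul, ← mul_assoc] at h9
      exact h9
    rw [← hek] at h4
    have h5 : e * k ≤ (h * n') * k := by
      calc e * k ≤ h * k * n' := h4
        _ = (h * n') * k := by ring
    exact Nat.le_of_mul_le_mul_right h5 hkpos
  -- the injection
  set F := T.filter (fun x : R => χ (sp x) ≠ 0 ∧ χ (sp x) ^ k = ζ) with hF
  have hch : ∀ u : MM hχ ht hd k, ∃ a : R, χ (sp a) ≠ 0 ∧ ((u : ℂˣ) : ℂ) = χ (sp a) ^ k :=
    fun u => u.2
  choose A hA1 hA2 using hch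
  have hfinq : Finite (R ⧸ q) := hb.1 q hqne
  set rr : R → R := fun x => (Ideal.Quotient.mk c x).out with hrr
  have hrr1 : ∀ x, x - rr x ∈ c := by
    intro x
    rw [← Ideal.Quotient.eq]
    exact (Quotient.out_eq (Ideal.Quotient.mk c x)).symm
  have hrr2 : ∀ x y, x - y ∈ c → rr x = rr y := by
    intro x y hxy
    simp only [hrr]
    rw [Ideal.Quotient.eq.2 hxy]
  have hnz : ∀ x : R, χ (sp x) ≠ 0 → x ≠ 0 := by
    intro x hx h0
    apply hx
    rw [hχ.zero]
    left
    rw [h0]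
    exact Ideal.span_singleton_eq_bot.2 rfl
  have hcle : q ≤ c := Ideal.le_of_dvd hcq
  have hinj : Function.Injective (fun p : F × MM hχ ht hd k =>
      Ideal.Quotient.mk q (rr p.1 * A p.2 + ((p.1 : R) - rr p.1))) := by
    rintro ⟨⟨x, hx⟩, u⟩ ⟨⟨y, hy⟩, v⟩ hxy
    rw [hF, Finset.mem_filter] at hx hy
    obtain ⟨hxT, hx1, hx2⟩ := hx
    obtain ⟨hyT, hy1, hy2⟩ := hy
    simp only at hxy
    rw [Ideal.Quotient.eq] at hxy
    have e1 : x * A u - y * A v ∈ c := by
      have e2 := hcle hxy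
      have e3 : x * A u - y * A v = (rr x * A u + (x - rr x) - (rr y * A v + (y - rr y))) +
          ((x - rr x) * (A u - 1) - (y - rr y) * (A v - 1)) := by ring
      rw [e3]
      exact c.add_mem e2 (c.sub_mem (c.mul_mem_right _ (hrr1 x)) (c.mul_mem_right _ (hrr1 y)))
    have e4 : χ (sp (x * A u)) = χ (sp (y * A v)) :=
      hper _ _ (mul_ne_zero (hnz _ hx1) (hnz _ (hA1 u))) (mul_ne_zero (hnz _ hy1) (hnz _ (hA1 v)))
        e1
    rw [chi_mul hχ, chi_mul hχ] at e4
    have e5 := congrArg (fun z => z ^ k) e4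
    simp only [mul_pow] at e5
    rw [hx2, hy2, ← hA2 u, ← hA2 v] at e5
    have hζ : ζ ≠ 0 := by rw [← hx2]; exact pow_ne_zero _ hx1
    have e6 := mul_left_cancel₀ hζ e5
    have e7 : u = v := Subtype.ext (Units.ext e6)
    subst e7
    -- `x - y ∈ c`
    have e8 : x - y ∈ c := by
      have hc : IsCoprime (sp (A u)) c := by
        by_contra hcon
        exact hA1 u ((hχ.zero _).2 (Or.inr hcon))
      rw [Ideal.isCoprime_iff_exists] at hc
      obtain ⟨s, hs, t, ht', hst⟩ := hc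
      obtain ⟨w, hw⟩ := Ideal.mem_span_singleton'.1 hs
      have e9 : x - y = w * (x * A u - y * A u) + t * (x - y) := by
        calc x - y = (s + t) * (x - y) := by rw [hst, one_mul]
          _ = _ := by rw [← hw]; ring
      rw [e9]
      exact c.add_mem (c.mul_mem_left _ e1) (c.mul_mem_right _ ht')
    have e9 := hrr2 x y e8
    have e10 : x - y ∈ q := by
      have : x - y = rr x * A u + (x - rr x) - (rr y * A u + (y - rr y)) := by rw [e9]; ring
      rw [this]
      exact hxy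
    obtain ⟨z, -, hz⟩ := hT.uni x
    have e11 := hz x ⟨hxT, by rw [sub_self]; exact q.zero_mem⟩
    have e12 := hz y ⟨hyT, e10⟩
    have e13 : x = y := e11.trans e12.symm
    subst e13
    rfl
  have hcard := Nat.card_le_card_of_injective _ hinj
  rw [Nat.card_prod, Nat.card_eq_fintype_card, Fintype.card_coe] at hcard
  have hcard' : (F.card : ℝ) * n' ≤ nm q := by
    unfold nm
    exact_mod_cast hcard
  have heR : (0 : ℝ) < e := by exact_mod_cast hepos
  rw [le_div_iff₀ heR]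
  calc (F.card : ℝ) * e ≤ F.card * (h * n' : ℕ) := by
        refine mul_le_mul_of_nonneg_left ?_ (Nat.cast_nonneg _)
        exact_mod_cast hle
    _ = h * (F.card * n') := by push_cast; ring
    _ ≤ h * nm q := mul_le_mul_of_nonneg_left hcard' (Nat.cast_nonneg _)

end Pool.Agent.W692.HK
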